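import Pool.Agent.Run7.h357.OD.Main

set_option autoImplicit false
set_option linter.unusedVariables false
set_option linter.unusedSectionVars false

/-!
Classes of twins (incomparable points with the same strict upper and lower sets) of ordered sets
with the same deck.
-/

namespace Run7.h357.OD.Inc

open Finset Classical
open Run7.h357.OD (D mem_D Same D_map)

variable {V : Type} [Fintype V]

/-- incomparable -/
def inc (r : V → V → Prop) (u v : V) : Prop := ¬ r u v ∧ ¬ r v u

/-- twins -/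
def tw (r : V → V → Prop) (u v : V) : Prop := u ≠ v ∧ inc r u v ∧ D r u v = ∅

theorem D_symm (r : V → V → Prop) (u v : V) : D r u v = D r v u := by
  ext w
  rw [mem_D, mem_D]
  tauto

theorem tw_symm {r : V → V → Prop} {u v : V} (h : tw r u v) : tw r v u :=
  ⟨h.1.symm, ⟨h.2.1.2, h.2.1.1⟩, by rw [D_symm]; exact h.2.2⟩

theorem D_empty {r : V → V → Prop} {u v : V} (h : D r u v = ∅) {z : V} (h1 : z ≠ u) (h2 : z ≠ v) :
    (r z u ↔ r z v) ∧ (r u z ↔ r v z) := by
  by_contra hcon
  have : z ∈ D r u v := mem_D.mpr ⟨h1, h2, hcon⟩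
  rw [h] at this
  exact notMem_empty _ this

/-- no new twins in the card of a point with a twin -/
theorem noNew {r : V → V → Prop} {i b u v : V} (hb : tw r i b) (hu : u ≠ i) (hv : v ≠ i)
    (huv : u ≠ v) (hinc : inc r u v) (h : (D r u v).erase i = ∅) : D r u v = ∅ := by
  by_contra hne
  have hi : i ∈ D r u v := by
    by_contra hi
    rw [erase_eq_of_notMem hi] at h
    exact hne h
  have hbD : b ∉ D r u v := by
    intro hbD
    have : b ∈ (D r u v).erase i := mem_erase.mpr ⟨hb.1.symm, hbD⟩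
    rw [h] at this
    exact notMem_empty _ this
  rw [mem_D] at hi
  obtain ⟨h1, h2, h3⟩ := hi
  apply h3
  obtain ⟨g1, g2⟩ := hb.2.1
  by_cases hbu : b = u
  · subst hbu
    have k := D_empty hb.2.2 hv (Ne.symm huv)
    obtain ⟨q1, q2⟩ := hinc
    tauto
  · by_cases hbv : b = v
    · subst hbv
      have k := D_empty hb.2.2 hu huv
      obtain ⟨q1, q2⟩ := hinc
      tauto
    · have k1 := D_empty hb.2.2 hu (Ne.symm hbu)
      have k2 := D_empty hb.2.2 hv (Ne.symm hbv)
      have k3 : (r b u ↔ r b v) ∧ (r u b ↔ r v b) := by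
        by_contra hcon
        exact hbD (mem_D.mpr ⟨hbu, hbv, hcon⟩)
      exact ⟨(k1.2.trans k3.1).trans k2.2.symm, (k1.1.trans k3.2).trans k2.1.symm⟩

/-- the number of the twins -/
noncomputable def s (r : V → V → Prop) (i : V) : ℕ := (univ.filter (fun v => tw r i v)).card

noncomputable def m (r : V → V → Prop) (j : ℕ) : ℕ :=
  (univ.filter (fun p : V × V => p.1 ≠ p.2 ∧ inc r p.1 p.2 ∧ (D r p.1 p.2).card = j)).card

noncomputable def c (r : V → V → Prop) (j : ℕ) (i : V) : ℕ :=
  (univ.filter (fun p : V × V => p.1 ≠ p.2 ∧ inc r p.1 p.2 ∧ p.1 ≠ i ∧ p.2 ≠ i ∧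
    ((D r p.1 p.2).erase i).card = j)).card

theorem fixi {r r' : V → V → Prop} {π : V → Equiv.Perm V} (h : Same r r' π) (i x : V) :
    π i x = i ↔ x = i := by
  constructor
  · intro e
    exact (π i).injective (e.trans (h.fix i).symm)
  · rintro rfl
    exact h.fix _

theorem inc_map {r r' : V → V → Prop} {π : V → Equiv.Perm V} (h : Same r r' π) {i u v : V}
    (hu : u ≠ i) (hv : v ≠ i) : inc r' (π i u) (π i v) ↔ inc r u v := by
  unfold inc
  rw [h.iso i u v hu hv, h.iso i v u hv hu]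

theorem c_map {r r' : V → V → Prop} {π : V → Equiv.Perm V} (h : Same r r' π) (j : ℕ) (i : V) :
    c r j i = c r' j i := by
  unfold c
  apply card_bij (fun p _ => (π i p.1, π i p.2))
  · rintro ⟨u, v⟩ hp
    rw [mem_filter] at hp ⊢
    obtain ⟨_, h1, h5, h2, h3, h4⟩ := hp
    simp only at h2 h3 h4 h5 ⊢
    refine ⟨mem_univ _, fun e => h1 ((π i).injective e), (inc_map h h2 h3).mpr h5,
      fun e => h2 ((fixi h i u).mp e), fun e => h3 ((fixi h i v).mp e), ?_⟩
    rw [D_map h h2 h3, card_image_of_injective _ (π i).injective]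
    exact h4
  · rintro ⟨u, v⟩ _ ⟨u', v'⟩ _ e
    simp only [Prod.mk.injEq] at e
    rw [(π i).injective e.1, (π i).injective e.2]
  · rintro ⟨u, v⟩ hp
    obtain ⟨u, rfl⟩ := (π i).surjective u
    obtain ⟨v, rfl⟩ := (π i).surjective v
    rw [mem_filter] at hp
    obtain ⟨_, h1, h5, h2, h3, h4⟩ := hp
    simp only at h1 h2 h3 h4 h5
    have hu : u ≠ i := fun e => h2 ((fixi h i u).mpr e)
    have hv : v ≠ i := fun e => h3 ((fixi h i v).mpr e)
    refine ⟨(u, v), ?_, rfl⟩
    rw [mem_filter]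
    refine ⟨mem_univ _, fun e => h1 (by simp only at e; rw [e]), (inc_map h hu hv).mp h5, hu, hv,
      ?_⟩
    rw [D_map h hu hv, card_image_of_injective _ (π i).injective] at h4
    exact h4

theorem total (r : V → V → Prop) (j : ℕ) :
    ∑ i, c r j i = (Fintype.card V - 2 - j) * m r j + (j + 1) * m r (j + 1) := by
  have h1 : ∀ i, c r j i = ∑ p ∈ univ.filter (fun p : V × V => p.1 ≠ p.2 ∧ inc r p.1 p.2),
      if p.1 ≠ i ∧ p.2 ≠ i ∧ ((D r p.1 p.2).erase i).card = j then 1 else 0 := by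
    intro i
    unfold c
    rw [← card_filter, filter_filter]
    congr 1
    ext p
    rw [mem_filter, mem_filter]
    tauto
  simp_rw [h1]
  rw [sum_comm]
  have h2 : ∀ p ∈ univ.filter (fun p : V × V => p.1 ≠ p.2 ∧ inc r p.1 p.2), (∑ i : V,
      if p.1 ≠ i ∧ p.2 ≠ i ∧ ((D r p.1 p.2).erase i).card = j then 1 else 0) =
      (if (D r p.1 p.2).card = j then Fintype.card V - 2 - j else 0) +
        (if (D r p.1 p.2).card = j + 1 then j + 1 else 0) := by
    intro p hp
    rw [mem_filter] at hp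
    rw [← Run7.h357.RV.inner (D r p.1 p.2) p.2 p.1 hp.2.1 (fun h => (mem_D.mp h).2.1 rfl)
      (fun h => (mem_D.mp h).1 rfl) j, ← card_filter]
    congr 1
    ext i
    rw [mem_filter, mem_filter]
    exact ⟨fun q => ⟨q.1, fun e => q.2.2.1 e.symm, q.2.1, q.2.2.2⟩,
      fun q => ⟨q.1, q.2.2.1, fun e => q.2.1 e.symm, q.2.2.2⟩⟩
  rw [sum_congr rfl h2, sum_add_distrib]
  have h3 : ∀ j, m r j = ∑ p ∈ univ.filter (fun p : V × V => p.1 ≠ p.2 ∧ inc r p.1 p.2),
      if (D r p.1 p.2).card = j then 1 else 0 := by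
    intro j
    unfold m
    rw [← card_filter, filter_filter]
    congr 1
    ext p
    rw [mem_filter, mem_filter]
    tauto
  rw [h3, h3, mul_sum, mul_sum]
  congr 1
  · apply sum_congr rfl
    intro u _
    split_ifs <;> simp
  · apply sum_congr rfl
    intro u _
    split_ifs <;> simp

theorem m_le (r : V → V → Prop) (j : ℕ) :
    m r j ≤ Fintype.card V * (Fintype.card V - 1) := by
  unfold m
  have h1 : (univ.filter (fun p : V × V => p.1 ≠ p.2 ∧ inc r p.1 p.2 ∧
      (D r p.1 p.2).card = j)) ⊆ (univ : Finset V).offDiag := by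
    intro p hp
    rw [mem_filter] at hp
    rw [mem_offDiag]
    exact ⟨mem_univ _, mem_univ _, hp.2.1⟩
  refine (card_le_card h1).trans ?_
  rw [offDiag_card, card_univ, Nat.mul_sub, Nat.mul_one]

theorem m0_eq {r r' : V → V → Prop} {π : V → Equiv.Perm V} (h : Same r r' π)
    (hn : 13 ≤ Fintype.card V) : m r 0 = m r' 0 := by
  have hs : ∀ j, ∑ i, c r j i = ∑ i, c r' j i := fun j =>
    sum_congr rfl (fun i _ => c_map h j i)
  have s0 := hs 0
  have s1 := hs 1
  have s2 := hs 2
  rw [total, total] at s0 s1 s2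
  have t1 := m_le r 3
  have t2 := m_le r' 3
  obtain ⟨N, hN⟩ : ∃ N, Fintype.card V = N + 2 := ⟨Fintype.card V - 2, by omega⟩
  rw [hN] at s0 s1 s2 t1 t2 hn
  simp only [Nat.add_sub_cancel, Nat.sub_zero, zero_add, one_mul,
    show (1 : ℕ) + 1 = 2 from rfl, show (2 : ℕ) + 1 = 3 from rfl] at s0 s1 s2
  have e : N + 2 - 1 = N + 1 := rfl
  rw [e] at t1 t2
  apply le_antisymm
  · exact Run7.h357.OD.arith (by omega) s0 s1 s2 t2
  · exact Run7.h357.OD.arith (by omega) s0.symm s1.symm s2.symm t1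

/-- the pairs of twins without `i` -/
noncomputable def oth (r : V → V → Prop) (i : V) : Finset (V × V) :=
  univ.filter (fun p : V × V => tw r p.1 p.2 ∧ p.1 ≠ i ∧ p.2 ≠ i)

theorem m_split (r : V → V → Prop) (i : V) : m r 0 = (oth r i).card + 2 * s r i := by
  have h1 : (univ.filter (fun p : V × V => p.1 ≠ p.2 ∧ inc r p.1 p.2 ∧ (D r p.1 p.2).card = 0)) =
      (oth r i ∪ (univ.filter (fun v => tw r i v)).image (fun v => (i, v))) ∪
        (univ.filter (fun v => tw r i v)).image (fun v => (v, i)) := by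
    ext p
    unfold oth
    rw [mem_union, mem_union, mem_filter, mem_filter, mem_image, mem_image, card_eq_zero]
    constructor
    · rintro ⟨_, g1, g2, g3⟩
      by_cases h1 : p.1 = i
      · left; right
        refine ⟨p.2, mem_filter.mpr ⟨mem_univ _, ?_⟩, ?_⟩
        · rw [← h1]; exact ⟨g1, g2, g3⟩
        · rw [← h1]
      · by_cases h2 : p.2 = i
        · right
          refine ⟨p.1, mem_filter.mpr ⟨mem_univ _, ?_⟩, ?_⟩
          · rw [← h2]; exact tw_symm ⟨g1, g2, g3⟩
          · rw [← h2]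
        · left; left
          exact ⟨mem_univ _, ⟨g1, g2, g3⟩, h1, h2⟩
    · rintro ((⟨_, h, _⟩ | ⟨v, hv, rfl⟩) | ⟨v, hv, rfl⟩)
      · exact ⟨mem_univ _, h⟩
      · rw [mem_filter] at hv
        exact ⟨mem_univ _, hv.2⟩
      · rw [mem_filter] at hv
        exact ⟨mem_univ _, tw_symm hv.2⟩
  unfold m s
  rw [h1, card_union_of_disjoint, card_union_of_disjoint, card_image_of_injective,
    card_image_of_injective]
  · ring
  · intro x y e
    exact (Prod.mk.inj e).1
  · intro x y e
    exact (Prod.mk.inj e).2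
  · rw [disjoint_left]
    intro p hp hp'
    unfold oth at hp
    rw [mem_filter] at hp
    rw [mem_image] at hp'
    obtain ⟨v, _, rfl⟩ := hp'
    exact hp.2.2.1 rfl
  · rw [disjoint_left]
    intro p hp hp'
    rw [mem_image] at hp'
    obtain ⟨v, hv, rfl⟩ := hp'
    rw [mem_filter] at hv
    rw [mem_union, mem_image] at hp
    rcases hp with hp | ⟨w, hw, e⟩
    · unfold oth at hp
      rw [mem_filter] at hp
      exact hp.2.2.2 rfl
    · have e1 := (Prod.mk.inj e).1
      exact hv.2.1 e1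

theorem c_ge (r : V → V → Prop) (i : V) : (oth r i).card ≤ c r 0 i := by
  apply card_le_card
  intro p hp
  unfold oth at hp
  rw [mem_filter] at hp
  obtain ⟨_, h1, h2, h3⟩ := hp
  rw [mem_filter]
  refine ⟨mem_univ _, h1.1, h1.2.1, h2, h3, ?_⟩
  rw [h1.2.2, erase_empty, card_empty]

theorem c_le {r : V → V → Prop} {i b : V} (hb : tw r i b) : c r 0 i ≤ (oth r i).card := by
  apply card_le_card
  intro p hp
  rw [mem_filter] at hp
  obtain ⟨_, h1, h2, h3, h4, h5⟩ := hp
  unfold oth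
  rw [mem_filter]
  exact ⟨mem_univ _, ⟨h1, h2, noNew hb h3 h4 h1 h2 (card_eq_zero.mp h5)⟩, h3, h4⟩

theorem s_pos {r : V → V → Prop} {i : V} : 0 < s r i ↔ ∃ b, tw r i b := by
  unfold s
  rw [card_pos]
  constructor
  · rintro ⟨b, hb⟩
    exact ⟨b, (mem_filter.mp hb).2⟩
  · rintro ⟨b, hb⟩
    exact ⟨b, mem_filter.mpr ⟨mem_univ _, hb⟩⟩

theorem s_eq {r r' : V → V → Prop} {π : V → Equiv.Perm V} (h : Same r r' π)
    (hn : 13 ≤ Fintype.card V) (i : V) : s r i = s r' i := by
  have h0 := m0_eq h hn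
  have h1 := m_split r i
  have h2 := m_split r' i
  have h3 := c_map h 0 i
  have h4 := c_ge r i
  have h5 := c_ge r' i
  by_cases p : 0 < s r i
  · obtain ⟨b, hb⟩ := s_pos.mp p
    have h6 := c_le hb
    have p' : 0 < s r' i := by omega
    obtain ⟨b', hb'⟩ := s_pos.mp p'
    have h7 := c_le hb'
    omega
  · by_cases p' : 0 < s r' i
    · obtain ⟨b', hb'⟩ := s_pos.mp p'
      have h7 := c_le hb'
      omega
    · omega

/-- the twins of `b` in the card of `i` -/
noncomputable def t (r : V → V → Prop) (i b : V) : ℕ :=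
  (univ.filter (fun v => v ≠ b ∧ v ≠ i ∧ inc r b v ∧ (D r b v).erase i = ∅)).card

theorem t_map {r r' : V → V → Prop} {π : V → Equiv.Perm V} (h : Same r r' π) {i b : V}
    (hb : b ≠ i) : t r i b = t r' i (π i b) := by
  unfold t
  apply card_bij (fun v _ => π i v)
  · intro v hv
    rw [mem_filter] at hv ⊢
    obtain ⟨_, h1, h2, h3, h4⟩ := hv
    refine ⟨mem_univ _, fun e => h1 ((π i).injective e), fun e => h2 ((fixi h i v).mp e),
      (inc_map h hb h2).mpr h3, ?_⟩
    rw [D_map h hb h2, h4, image_empty]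
  · intro v _ v' _ e
    exact (π i).injective e
  · intro v hv
    obtain ⟨v, rfl⟩ := (π i).surjective v
    rw [mem_filter] at hv
    obtain ⟨_, h1, h2, h3, h4⟩ := hv
    have hvi : v ≠ i := fun e => h2 ((fixi h i v).mpr e)
    refine ⟨v, ?_, rfl⟩
    rw [mem_filter]
    refine ⟨mem_univ _, fun e => h1 (by rw [e]), hvi, (inc_map h hb hvi).mp h3, ?_⟩
    rw [D_map h hb hvi, image_eq_empty] at h4
    exact h4

theorem t_eq {r : V → V → Prop} {i b₀ : V} (hb₀ : tw r i b₀) {b : V} (hb : b ≠ i) :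
    t r i b = ((univ.filter (fun v => tw r b v)).erase i).card := by
  unfold t
  congr 1
  ext v
  rw [mem_filter, mem_erase, mem_filter]
  constructor
  · rintro ⟨_, h1, h2, h3, h4⟩
    exact ⟨h2, mem_univ _, h1.symm, h3, noNew hb₀ hb h2 h1.symm h3 h4⟩
  · rintro ⟨h1, _, h2⟩
    refine ⟨mem_univ _, h2.1.symm, h1, h2.2.1, ?_⟩
    rw [h2.2.2, erase_empty]

theorem main {r r' : V → V → Prop} {π : V → Equiv.Perm V} (h : Same r r' π)
    (hrefl : ∀ x, r x x) (hrefl' : ∀ x, r' x x)
    (hn : 13 ≤ Fintype.card V) (hgap : ∃ b, 0 < s r b ∧ ∀ y, s r y + 1 ≠ s r b) :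
    ∃ σ : Equiv.Perm V, ∀ x y, r' (σ x) (σ y) ↔ r x y := by
  obtain ⟨b, hb, hgap⟩ := hgap
  obtain ⟨i, hi⟩ := s_pos.mp hb
  have hib : tw r i b := tw_symm hi
  have hbi : b ≠ i := hi.1
  have hsi : 0 < s r' i := by
    rw [← s_eq h hn i]
    exact s_pos.mpr ⟨b, hib⟩
  obtain ⟨b', hb'⟩ := s_pos.mp hsi
  -- the image of `b` is a twin of `i`
  have hy : π i b ≠ i := fun e => hbi ((fixi h i b).mp e)
  have e1 := t_map h hbi
  rw [t_eq hib hbi, t_eq hb' hy] at e1
  have htw : tw r' (π i b) i := by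
    by_contra hcon
    have hnot : i ∉ univ.filter (fun v => tw r' (π i b) v) := fun hm => hcon (mem_filter.mp hm).2
    have hmem : i ∈ univ.filter (fun v => tw r b v) := mem_filter.mpr ⟨mem_univ _, hi⟩
    rw [erase_eq_of_notMem hnot, card_erase_of_mem hmem] at e1
    have e2 := s_eq h hn (π i b)
    have e3 : s r' (π i b) = (univ.filter (fun v => tw r' (π i b) v)).card := rfl
    have e4 : s r b = (univ.filter (fun v => tw r b v)).card := rfl
    exact hgap (π i b) (by omega)
  refine ⟨π i, ?_⟩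
  have key : ∀ x, x ≠ i → (r' (π i x) i ↔ r x i) ∧ (r' i (π i x) ↔ r i x) := by
    intro x hx
    by_cases hxb : x = b
    · subst hxb
      have q1 := htw.2.1
      have q2 := hi.2.1
      unfold inc at q1 q2
      tauto
    · have k1 := D_empty hib.2.2 hx hxb
      have hx' : π i x ≠ i := fun e => hx ((fixi h i x).mp e)
      have hxb' : π i x ≠ π i b := fun e => hxb ((π i).injective e)
      have k2 := D_empty htw.2.2 hxb' hx'
      have k3 := h.iso i x b hx hbi
      have k4 := h.iso i b x hbi hx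
      tauto
  intro x y
  by_cases hx : x = i
  · by_cases hy : y = i
    · rw [hx, hy, h.fix i]
      exact ⟨fun _ => hrefl i, fun _ => hrefl' i⟩
    · rw [hx, h.fix i]
      exact (key y hy).2
  · by_cases hy : y = i
    · rw [hy, h.fix i]
      exact (key x hx).1
    · exact h.iso i x y hx hy

end Run7.h357.OD.Inc
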