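import Pool.Agent.Run7.h357.RV.Main

set_option autoImplicit false
set_option linter.unusedVariables false
set_option linter.unusedSectionVars false

/-!
Autonomous pairs and the dimension of finite ordered sets with the same deck.
-/

namespace Run7.h357.OD

open Finset Classical

variable {V W : Type}

/-- `L` is a linear order -/
def IsLin (L : V → V → Prop) : Prop :=
  (∀ x, L x x) ∧ (∀ x y z, L x y → L y z → L x z) ∧ (∀ x y, L x y → L y x → x = y) ∧
    (∀ x y, L x y ∨ L y x)

/-- `r` is the intersection of `d` linear orders -/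
def HasDim (r : V → V → Prop) (d : ℕ) : Prop :=
  ∃ L : Fin d → V → V → Prop, (∀ i, IsLin (L i)) ∧ ∀ x y, r x y ↔ ∀ i, L i x y

theorem HasDim.pull {r : V → V → Prop} {d : ℕ} (h : HasDim r d) (f : W → V)
    (hf : Function.Injective f) : HasDim (fun x y => r (f x) (f y)) d := by
  obtain ⟨L, hL, hr⟩ := h
  refine ⟨fun i x y => L i (f x) (f y), fun i => ?_, fun x y => hr _ _⟩
  obtain ⟨h1, h2, h3, h4⟩ := hL i
  exact ⟨fun x => h1 _, fun x y z => h2 _ _ _, fun x y hxy hyx => hf (h3 _ _ hxy hyx),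
    fun x y => h4 _ _⟩

/-- the order without the point `i` -/
def card (r : V → V → Prop) (i : V) : {x : V // x ≠ i} → {x : V // x ≠ i} → Prop :=
  fun x y => r x y

/-- `a` and `b` form an autonomous set -/
def Auto (r : V → V → Prop) (a b : V) : Prop :=
  a ≠ b ∧ ∀ z, z ≠ a → z ≠ b → ((r z a ↔ r z b) ∧ (r a z ↔ r b z))

theorem insert_dim {r : V → V → Prop} (hrefl : ∀ x, r x x)
    (hanti : ∀ x y, r x y → r y x → x = y) {a b : V} (hab : Auto r a b) {d : ℕ}
    (hd : 1 ≤ d) (hd2 : ¬ r a b → ¬ r b a → 2 ≤ d) (h : HasDim (card r a) d) : HasDim r d := by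
  obtain ⟨L, hL, hr⟩ := h
  have hba : b ≠ a := Ne.symm hab.1
  set φ : V → {x : V // x ≠ a} := fun x => if h : x = a then ⟨b, hba⟩ else ⟨x, h⟩ with hφ
  have φa : φ a = ⟨b, hba⟩ := dif_pos rfl
  have φn : ∀ x (h : x ≠ a), φ x = ⟨x, h⟩ := fun x h => dif_neg h
  -- the side on which `a` is inserted
  obtain ⟨t, ht⟩ : ∃ t : Fin d → Prop, (r a b ↔ ∀ i, ¬ t i) ∧ (r b a ↔ ∀ i, t i) := by
    by_cases h1 : r a b
    · refine ⟨fun _ => False, ⟨fun _ _ h => h, fun _ => h1⟩, fun h2 => ?_, fun h2 => ?_⟩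
      · exact (hab.1 (hanti a b h1 h2)).elim
      · exact (h2 ⟨0, hd⟩).elim
    · by_cases h2 : r b a
      · refine ⟨fun _ => True, ⟨fun h3 => (h1 h3).elim, fun h3 => (h3 ⟨0, hd⟩ trivial).elim⟩,
          fun _ _ => trivial, fun _ => h2⟩
      · have h3 := hd2 h1 h2
        refine ⟨fun i => i.val = 0, ⟨fun h4 => (h1 h4).elim, fun h4 => ?_⟩,
          fun h4 => (h2 h4).elim, fun h4 => ?_⟩
        · exact (h4 ⟨0, by omega⟩ rfl).elim
        · have := h4 ⟨1, by omega⟩
          simp at this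
  set ρ : Fin d → V → ℕ := fun i x => if x = a then (if t i then 1 else 0) else
    (if t i then 0 else 1) with hρ
  have ρa : ∀ i, ρ i a = if t i then 1 else 0 := fun i => if_pos rfl
  have ρn : ∀ i x, x ≠ a → ρ i x = if t i then 0 else 1 := fun i x h => if_neg h
  have key : ∀ x y, φ x = φ y → x = y ∨ (x = a ∧ y = b) ∨ (x = b ∧ y = a) := by
    intro x y h
    by_cases hx : x = a
    · by_cases hy : y = a
      · exact Or.inl (by rw [hx, hy])
      · rw [hx, φa, φn y hy] at h
        exact Or.inr (Or.inl ⟨hx, (congrArg Subtype.val h).symm⟩)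
    · by_cases hy : y = a
      · rw [hy, φa, φn x hx] at h
        exact Or.inr (Or.inr ⟨congrArg Subtype.val h, hy⟩)
      · rw [φn x hx, φn y hy] at h
        exact Or.inl (congrArg Subtype.val h)
  refine ⟨fun i x y => L i (φ x) (φ y) ∧ (φ x = φ y → ρ i x ≤ ρ i y), fun i => ?_, fun x y => ?_⟩
  · obtain ⟨h1, h2, h3, h4⟩ := hL i
    refine ⟨fun x => ⟨h1 _, fun _ => le_refl _⟩, ?_, ?_, ?_⟩
    · rintro x y z ⟨p1, p2⟩ ⟨q1, q2⟩
      refine ⟨h2 _ _ _ p1 q1, fun h => ?_⟩
      have e1 : φ x = φ y := h3 _ _ p1 (h ▸ q1)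
      have e2 : φ y = φ z := e1.symm.trans h
      exact (p2 e1).trans (q2 e2)
    · rintro x y ⟨p1, p2⟩ ⟨q1, q2⟩
      have e1 : φ x = φ y := h3 _ _ p1 q1
      have e2 := le_antisymm (p2 e1) (q2 e1.symm)
      rcases key x y e1 with h | ⟨rfl, rfl⟩ | ⟨rfl, rfl⟩
      · exact h
      · rw [ρa, ρn i _ hba] at e2
        split_ifs at e2
      · rw [ρa, ρn i _ hba] at e2
        split_ifs at e2
    · intro x y
      by_cases e : φ x = φ y
      · rcases le_total (ρ i x) (ρ i y) with h | h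
        · exact Or.inl ⟨e ▸ h1 _, fun _ => h⟩
        · exact Or.inr ⟨e ▸ h1 _, fun _ => h⟩
      · rcases h4 (φ x) (φ y) with h | h
        · exact Or.inl ⟨h, fun h' => (e h').elim⟩
        · exact Or.inr ⟨h, fun h' => (e h'.symm).elim⟩
  · by_cases e : φ x = φ y
    · rcases key x y e with h | ⟨rfl, rfl⟩ | ⟨rfl, rfl⟩
      · subst h
        exact ⟨fun _ i => ⟨(hL i).1 _, fun _ => le_refl _⟩, fun _ => hrefl x⟩
      · rw [ht.1]
        refine forall_congr' fun i => ?_
        show _ ↔ (L i (φ x) (φ y) ∧ (φ x = φ y → ρ i x ≤ ρ i y))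
        rw [ρa, ρn i _ hba, e]
        constructor
        · intro h
          refine ⟨(hL i).1 _, fun _ => ?_⟩
          rw [if_neg h, if_neg h]
          omega
        · rintro ⟨_, h⟩ ht'
          have := h rfl
          rw [if_pos ht', if_pos ht'] at this
          omega
      · rw [ht.2]
        refine forall_congr' fun i => ?_
        show _ ↔ (L i (φ x) (φ y) ∧ (φ x = φ y → ρ i x ≤ ρ i y))
        rw [ρa, ρn i _ hba, e]
        constructor
        · intro h
          refine ⟨(hL i).1 _, fun _ => ?_⟩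
          rw [if_pos h, if_pos h]
          omega
        · rintro ⟨_, h⟩
          have := h rfl
          by_contra ht'
          rw [if_neg ht', if_neg ht'] at this
          omega
    · have h1 : r x y ↔ r (φ x) (φ y) := by
        by_cases hx : x = a
        · subst hx
          by_cases hy : y = x
          · exact (e (by rw [hy])).elim
          · have hyb : y ≠ b := fun h => e (by rw [φa, φn y hy]; exact Subtype.ext h.symm)
            rw [φa, φn y hy]
            exact (hab.2 y hy hyb).2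
        · by_cases hy : y = a
          · subst hy
            have hxb : x ≠ b := fun h => e (by rw [φa, φn x hx]; exact Subtype.ext h)
            rw [φa, φn x hx]
            exact (hab.2 x hx hxb).1
          · rw [φn x hx, φn y hy]
      rw [h1]
      have h2 := hr (φ x) (φ y)
      unfold card at h2
      rw [h2]
      exact ⟨fun h i => ⟨h i, fun h' => (e h').elim⟩, fun h i => (h i).1⟩

variable [Fintype V]

/-- with an autonomous pair, the dimension is determined by the cards -/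
theorem dim_iff {r : V → V → Prop} (hrefl : ∀ x, r x x)
    (hanti : ∀ x y, r x y → r y x → x = y) (hn : 4 ≤ Fintype.card V) {a b : V}
    (hab : Auto r a b) (d : ℕ) : HasDim r d ↔ ∀ i, HasDim (card r i) d := by
  constructor
  · intro h i
    exact h.pull Subtype.val Subtype.val_injective
  · intro h
    obtain ⟨z, hza, hzb⟩ : ∃ z, z ≠ a ∧ z ≠ b := by
      by_contra hcon
      push Not at hcon
      have : (univ : Finset V) ⊆ {a, b} := by
        intro z _
        rw [mem_insert, mem_singleton]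
        by_cases hz : z = a
        · exact Or.inl hz
        · exact Or.inr (hcon z hz)
      have h1 := card_le_card this
      have h2 : ({a, b} : Finset V).card ≤ 2 := card_le_two
      rw [card_univ] at h1
      omega
    obtain ⟨L, hL, hr⟩ := h z
    have hr1 := hr ⟨a, Ne.symm hza⟩ ⟨b, Ne.symm hzb⟩
    have hr2 := hr ⟨b, Ne.symm hzb⟩ ⟨a, Ne.symm hza⟩
    unfold card at hr1 hr2
    simp only at hr1 hr2
    have hd : 1 ≤ d := by
      by_contra hd
      have hd0 : d = 0 := by omega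
      subst hd0
      exact hab.1 (hanti a b (hr1.mpr (fun i => i.elim0)) (hr2.mpr (fun i => i.elim0)))
    refine insert_dim hrefl hanti hab hd ?_ (h a)
    intro h1 h2
    by_contra hd2
    have hd1 : d = 1 := by omega
    subst hd1
    rcases (hL 0).2.2.2 ⟨a, Ne.symm hza⟩ ⟨b, Ne.symm hzb⟩ with h3 | h3
    · exact h1 (hr1.mpr (fun i => by rw [Subsingleton.elim i 0]; exact h3))
    · exact h2 (hr2.mpr (fun i => by rw [Subsingleton.elim i 0]; exact h3))

/-! ### counting -/

/-- the points which distinguish `u` and `v` -/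
noncomputable def D (r : V → V → Prop) (u v : V) : Finset V :=
  univ.filter (fun w => w ≠ u ∧ w ≠ v ∧ ¬ ((r w u ↔ r w v) ∧ (r u w ↔ r v w)))

theorem mem_D {r : V → V → Prop} {u v w : V} :
    w ∈ D r u v ↔ w ≠ u ∧ w ≠ v ∧ ¬ ((r w u ↔ r w v) ∧ (r u w ↔ r v w)) := by
  unfold D
  rw [mem_filter]
  exact ⟨fun h => h.2, fun h => ⟨mem_univ _, h⟩⟩

noncomputable def m (r : V → V → Prop) (j : ℕ) : ℕ :=
  (univ.filter (fun p : V × V => p.1 ≠ p.2 ∧ (D r p.1 p.2).card = j)).card

noncomputable def c (r : V → V → Prop) (j : ℕ) (i : V) : ℕ :=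
  (univ.filter (fun p : V × V => p.1 ≠ p.2 ∧ p.1 ≠ i ∧ p.2 ≠ i ∧
    ((D r p.1 p.2).erase i).card = j)).card

theorem auto_iff {r : V → V → Prop} {u v : V} :
    Auto r u v ↔ u ≠ v ∧ (D r u v).card = 0 := by
  rw [card_eq_zero]
  unfold Auto
  constructor
  · rintro ⟨h1, h2⟩
    refine ⟨h1, ?_⟩
    rw [eq_empty_iff_forall_notMem]
    intro w hw
    rw [mem_D] at hw
    exact hw.2.2 (h2 w hw.1 hw.2.1)
  · rintro ⟨h1, h2⟩
    refine ⟨h1, fun z hz1 hz2 => ?_⟩
    by_contra hcon
    have : z ∈ D r u v := mem_D.mpr ⟨hz1, hz2, hcon⟩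
    rw [h2] at this
    exact notMem_empty _ this

/-- the same cards -/
structure Same (r r' : V → V → Prop) (π : V → Equiv.Perm V) : Prop where
  fix : ∀ i, π i i = i
  iso : ∀ i x y, x ≠ i → y ≠ i → (r' (π i x) (π i y) ↔ r x y)

theorem D_map {r r' : V → V → Prop} {π : V → Equiv.Perm V} (h : Same r r' π) {i u v : V}
    (hu : u ≠ i) (hv : v ≠ i) :
    (D r' (π i u) (π i v)).erase i = ((D r u v).erase i).image (π i) := by
  ext w
  obtain ⟨w, rfl⟩ := (π i).surjective w
  rw [mem_erase, mem_image]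
  constructor
  · rintro ⟨h1, h2⟩
    rw [mem_D] at h2
    obtain ⟨h2, h3, h4⟩ := h2
    have hwi : w ≠ i := fun e => h1 (by rw [e]; exact h.fix i)
    refine ⟨w, mem_erase.mpr ⟨hwi, mem_D.mpr ⟨fun e => h2 (by rw [e]), fun e => h3 (by rw [e]),
      ?_⟩⟩, rfl⟩
    rw [h.iso i w u hwi hu, h.iso i w v hwi hv, h.iso i u w hu hwi, h.iso i v w hv hwi] at h4
    exact h4
  · rintro ⟨w', hw', he⟩
    rw [(π i).injective.eq_iff] at he
    subst he
    rw [mem_erase, mem_D] at hw'
    obtain ⟨h1, h2, h3, h4⟩ := hw'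
    refine ⟨fun e => h1 ((π i).injective (e.trans (h.fix i).symm)), mem_D.mpr
      ⟨fun e => h2 ((π i).injective e), fun e => h3 ((π i).injective e), ?_⟩⟩
    rw [h.iso i w' u h1 hu, h.iso i w' v h1 hv, h.iso i u w' hu h1, h.iso i v w' hv h1]
    exact h4

theorem c_map {r r' : V → V → Prop} {π : V → Equiv.Perm V} (h : Same r r' π) (j : ℕ) (i : V) :
    c r j i = c r' j i := by
  have fixi : ∀ x, π i x = i ↔ x = i := by
    intro x
    constructor
    · intro e
      exact (π i).injective (e.trans (h.fix i).symm)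
    · rintro rfl
      exact h.fix _
  unfold c
  apply card_bij (fun p _ => (π i p.1, π i p.2))
  · rintro ⟨u, v⟩ hp
    rw [mem_filter] at hp ⊢
    obtain ⟨_, h1, h2, h3, h4⟩ := hp
    refine ⟨mem_univ _, fun e => h1 ((π i).injective e), fun e => h2 ((fixi u).mp e),
      fun e => h3 ((fixi v).mp e), ?_⟩
    simp only at h2 h3 h4 ⊢
    rw [D_map h h2 h3, card_image_of_injective _ (π i).injective]
    exact h4
  · rintro ⟨u, v⟩ _ ⟨u', v'⟩ _ e
    simp only [Prod.mk.injEq] at e
    rw [(π i).injective e.1, (π i).injective e.2]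
  · rintro ⟨u, v⟩ hp
    obtain ⟨u, rfl⟩ := (π i).surjective u
    obtain ⟨v, rfl⟩ := (π i).surjective v
    rw [mem_filter] at hp
    obtain ⟨_, h1, h2, h3, h4⟩ := hp
    simp only at h1 h2 h3 h4
    have hu : u ≠ i := fun e => h2 ((fixi u).mpr e)
    have hv : v ≠ i := fun e => h3 ((fixi v).mpr e)
    refine ⟨(u, v), ?_, rfl⟩
    rw [mem_filter]
    refine ⟨mem_univ _, fun e => h1 (by simp only at e; rw [e]), hu, hv, ?_⟩
    rw [D_map h hu hv, card_image_of_injective _ (π i).injective] at h4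
    exact h4

theorem total (r : V → V → Prop) (j : ℕ) :
    ∑ i, c r j i = (Fintype.card V - 2 - j) * m r j + (j + 1) * m r (j + 1) := by
  have h1 : ∀ i, c r j i = ∑ p ∈ univ.filter (fun p : V × V => p.1 ≠ p.2),
      if p.1 ≠ i ∧ p.2 ≠ i ∧ ((D r p.1 p.2).erase i).card = j then 1 else 0 := by
    intro i
    unfold c
    rw [← card_filter, filter_filter]
  simp_rw [h1]
  rw [sum_comm]
  have h2 : ∀ p ∈ univ.filter (fun p : V × V => p.1 ≠ p.2), (∑ i : V,
      if p.1 ≠ i ∧ p.2 ≠ i ∧ ((D r p.1 p.2).erase i).card = j then 1 else 0) =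
      (if (D r p.1 p.2).card = j then Fintype.card V - 2 - j else 0) +
        (if (D r p.1 p.2).card = j + 1 then j + 1 else 0) := by
    intro p hp
    rw [mem_filter] at hp
    rw [← Run7.h357.RV.inner (D r p.1 p.2) p.2 p.1 hp.2 (fun h => (mem_D.mp h).2.1 rfl)
      (fun h => (mem_D.mp h).1 rfl) j, ← card_filter]
    congr 1
    ext i
    rw [mem_filter, mem_filter]
    exact ⟨fun q => ⟨q.1, fun e => q.2.2.1 e.symm, q.2.1, q.2.2.2⟩,
      fun q => ⟨q.1, q.2.2.1, fun e => q.2.1 e.symm, q.2.2.2⟩⟩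
  rw [sum_congr rfl h2, sum_add_distrib]
  have h3 : ∀ j, m r j = ∑ p ∈ univ.filter (fun p : V × V => p.1 ≠ p.2),
      if (D r p.1 p.2).card = j then 1 else 0 := by
    intro j
    unfold m
    rw [← card_filter, filter_filter]
  rw [h3, h3, mul_sum, mul_sum]
  congr 1
  · apply sum_congr rfl
    intro u _
    split_ifs <;> simp
  · apply sum_congr rfl
    intro u _
    split_ifs <;> simp

theorem m_le (r : V → V → Prop) (j : ℕ) :
    m r j ≤ Fintype.card V * (Fintype.card V - 1) := by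
  unfold m
  have h1 : (univ.filter (fun p : V × V => p.1 ≠ p.2 ∧ (D r p.1 p.2).card = j)) ⊆
      (univ : Finset V).offDiag := by
    intro p hp
    rw [mem_filter] at hp
    rw [mem_offDiag]
    exact ⟨mem_univ _, mem_univ _, hp.2.1⟩
  refine (card_le_card h1).trans ?_
  rw [offDiag_card, card_univ, Nat.mul_sub, Nat.mul_one]

theorem arith {N k0 k1 k2 k3 l0 l1 l2 l3 : ℕ} (hN : 11 ≤ N) (h0 : N * k0 + k1 = N * l0 + l1)
    (h1 : (N - 1) * k1 + 2 * k2 = (N - 1) * l1 + 2 * l2)
    (h2 : (N - 2) * k2 + 3 * k3 = (N - 2) * l2 + 3 * l3)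
    (h3 : l3 ≤ (N + 2) * (N + 1)) : k0 ≤ l0 := by
  by_contra hlt
  obtain ⟨t, rfl⟩ : ∃ t, N = t + 11 := ⟨N - 11, by omega⟩
  have e1 : t + 11 - 1 = t + 10 := rfl
  have e2 : t + 11 - 2 = t + 9 := rfl
  rw [e1] at h1
  rw [e2] at h2
  zify at h0 h1 h2 h3 hlt
  have f0 : (1 : ℤ) ≤ k0 - l0 := by omega
  have g1 : (l1 : ℤ) - k1 = (t + 11) * (k0 - l0) := by linarith
  have g2 : 2 * ((k2 : ℤ) - l2) = (t + 10) * (l1 - k1) := by linarith
  have g3 : 3 * ((l3 : ℤ) - k3) = (t + 9) * (k2 - l2) := by linarith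
  have g4 : 6 * ((l3 : ℤ) - k3) = (t + 9) * ((t + 10) * ((t + 11) * (k0 - l0))) := by
    rw [← g1, ← g2]; linarith
  have g5 : ((t : ℤ) + 9) * ((t + 10) * (t + 11)) ≤
      (t + 9) * ((t + 10) * ((t + 11) * (k0 - l0))) := by
    have ht : (0 : ℤ) ≤ t := Int.natCast_nonneg t
    have : (t : ℤ) + 11 ≤ (t + 11) * (k0 - l0) := by nlinarith
    apply mul_le_mul_of_nonneg_left _ (by linarith)
    apply mul_le_mul_of_nonneg_left this (by linarith)
  have hk3 : (0 : ℤ) ≤ k3 := Int.natCast_nonneg k3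
  have ht : (0 : ℤ) ≤ t := Int.natCast_nonneg t
  nlinarith [mul_nonneg ht ht, mul_nonneg (mul_nonneg ht ht) ht]

theorem m0_eq {r r' : V → V → Prop} {π : V → Equiv.Perm V} (h : Same r r' π)
    (hn : 13 ≤ Fintype.card V) : m r 0 = m r' 0 := by
  have hs : ∀ j, ∑ i, c r j i = ∑ i, c r' j i := fun j =>
    sum_congr rfl (fun i _ => c_map h j i)
  have s0 := hs 0
  have s1 := hs 1
  have s2 := hs 2
  rw [total, total] at s0 s1 s2
  have t1 := m_le r 3
  have t2 := m_le r' 3
  obtain ⟨N, hN⟩ : ∃ N, Fintype.card V = N + 2 := ⟨Fintype.card V - 2, by omega⟩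
  rw [hN] at s0 s1 s2 t1 t2 hn
  simp only [Nat.add_sub_cancel, Nat.sub_zero, zero_add, one_mul,
    show (1 : ℕ) + 1 = 2 from rfl, show (2 : ℕ) + 1 = 3 from rfl] at s0 s1 s2
  have e : N + 2 - 1 = N + 1 := rfl
  rw [e] at t1 t2
  apply le_antisymm
  · exact arith (by omega) s0 s1 s2 t2
  · exact arith (by omega) s0.symm s1.symm s2.symm t1

theorem card_iso {r r' : V → V → Prop} {π : V → Equiv.Perm V} (h : Same r r' π) (i : V) (d : ℕ) :
    HasDim (card r i) d ↔ HasDim (card r' i) d := by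
  have fixi : ∀ x, π i x = i ↔ x = i := by
    intro x
    constructor
    · intro e
      exact (π i).injective (e.trans (h.fix i).symm)
    · rintro rfl
      exact h.fix _
  have fixs : ∀ x, (π i).symm x = i ↔ x = i := by
    intro x
    rw [Equiv.symm_apply_eq, h.fix i]
  constructor
  · intro hd
    have := hd.pull (W := {x : V // x ≠ i})
      (fun x => ⟨(π i).symm x, fun e => x.2 ((fixs _).mp e)⟩) (by
        intro x y e
        exact Subtype.ext ((π i).symm.injective (congrArg Subtype.val e)))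
    have e : (fun x y : {x : V // x ≠ i} => card r i ⟨(π i).symm x, fun e => x.2 ((fixs _).mp e)⟩
        ⟨(π i).symm y, fun e => y.2 ((fixs _).mp e)⟩) = card r' i := by
      funext x y
      apply propext
      unfold card
      simp only
      rw [← h.iso i _ _ (fun e => x.2 ((fixs _).mp e)) (fun e => y.2 ((fixs _).mp e)),
        Equiv.apply_symm_apply, Equiv.apply_symm_apply]
    rw [e] at this
    exact this
  · intro hd
    have := hd.pull (W := {x : V // x ≠ i})
      (fun x => ⟨π i x, fun e => x.2 ((fixi _).mp e)⟩) (by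
        intro x y e
        exact Subtype.ext ((π i).injective (congrArg Subtype.val e)))
    have e : (fun x y : {x : V // x ≠ i} => card r' i ⟨π i x, fun e => x.2 ((fixi _).mp e)⟩
        ⟨π i y, fun e => y.2 ((fixi _).mp e)⟩) = card r i := by
      funext x y
      apply propext
      unfold card
      simp only
      exact h.iso i x y x.2 y.2
    rw [e] at this
    exact this

theorem main {r r' : V → V → Prop} {π : V → Equiv.Perm V} (h : Same r r' π)
    (hrefl : ∀ x, r x x) (hanti : ∀ x y, r x y → r y x → x = y)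
    (hrefl' : ∀ x, r' x x) (hanti' : ∀ x y, r' x y → r' y x → x = y)
    (hn : 13 ≤ Fintype.card V) (hab : ∃ a b, Auto r a b) (d : ℕ) :
    HasDim r d ↔ HasDim r' d := by
  obtain ⟨a, b, hab⟩ := hab
  have h0 := m0_eq h hn
  have hpos : 0 < m r 0 := by
    unfold m
    exact card_pos.mpr ⟨(a, b), mem_filter.mpr ⟨mem_univ _, auto_iff.mp hab⟩⟩
  rw [h0] at hpos
  unfold m at hpos
  obtain ⟨⟨a', b'⟩, hp⟩ := card_pos.mp hpos
  rw [mem_filter] at hp
  have hab' : Auto r' a' b' := auto_iff.mpr hp.2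
  rw [dim_iff hrefl hanti (by omega) hab d, dim_iff hrefl' hanti' (by omega) hab' d]
  exact forall_congr' fun i => card_iso h i d

end Run7.h357.OD
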